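import Pool.Agent.H9.UZ.Tar

/-! # Board uz_modules, module FB3: closed sets of labels: unions, intersections -/

set_option linter.unusedVariables false

open Ordinal Order Set
open scoped ZFSet

namespace SE.UZ

open SF CAA

namespace FB3h

theorem tm2 {M : V → Prop} {f : (V → Prop) → (ℕ → V) → V} (hM : ZFm M) (hf : Tm ZFm f)
    {x y : V} (hx : M x) (hy : M y) : M (f M (cons x fun _ => y)) :=
  hf.1 M hM _ (In.cons (fun _ => hy) hx)

end FB3h

theorem pf_FB3 (hBA : T_BA) (hBR : T_BR) : T_FB3 := by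
  intro D κ hA
  have hD := hA.ok
  have zfm : ZFm D.N := hD.zfc.toZFCm.toZFm
  obtain ⟨-, -, -, c0, c1, c2, -⟩ := hBA
  obtain ⟨-, r2, -, r4, -⟩ := hBR D hD
  have hHN : ∀ x ∈ D.H, D.N x := fun x hx => zfm.trans _ hD.hN _ hx
  have h0 : (∅ : V) ∈ D.H := hD.zfH.trans κ hA.kH ∅ hA.zero
  refine ⟨⟨h0, c0 D.L, fun i hi => absurd hi (ZFSet.notMem_empty i)⟩, ?_, ?_⟩
  · intro ρ ρ' h h'
    obtain ⟨u1, u2⟩ := c1 D.L ρ ρ' h.c h'.c
    refine ⟨⟨?_, u2, ?_⟩, ⟨?_, u1, ?_⟩⟩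
    · exact FB3h.tm2 (M := (· ∈ D.H)) hD.zfH
        (Tm.inter (Tm.var 0) (Tm.var 1)) h.h h'.h
    · intro i hi
      exact h.g i (ZFSet.mem_inter.1 hi).1
    · exact (r4 ρ h.h ρ' h'.h).2.1
    · intro i hi
      rcases ZFSet.mem_union.1 hi with hi | hi
      · exact h.g i hi
      · exact h'.g i hi
  · intro I F hI hF hv
    set f : V := resS I fun v => app F v with hf
    have hfN : D.N f := FB3h.tm2 (f := fun _ v => resS (v 0) fun x => app (v 1) x) zfm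
      (Tm.resS (g := fun _ v => app (v 2) (v 0)) (Tm.var 0) (Tm.app (Tm.var 2) (Tm.var 0)))
      (hHN I hI) hF
    have hrg : ∀ y, y ∈ rg f ↔ ∃ v ∈ I, app F v = y := by
      intro y
      rw [mem_rg]
      constructor
      · rintro ⟨x, hx⟩
        obtain ⟨x', hx', e⟩ := mem_resS.1 hx
        obtain ⟨e1, e2⟩ := ZFSet.pair_injective e
        exact ⟨x', hx', e2⟩
      · rintro ⟨v, hv', e⟩
        exact ⟨v, mem_resS.2 ⟨v, hv', by rw [e]⟩⟩
    have hrH : rg f ⊆ D.H := by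
      intro y hy
      obtain ⟨v, hv', rfl⟩ := (hrg y).1 hy
      exact (hv v hv').h
    have hr := (r2 f I hfN (svl_resS _ _) (dm_resS _ _) hI hrH).1
    refine ⟨(⋃₀ rg f : ZFSet), ⟨hD.zfH.union _ hr, c2 D.L _ ?_, ?_⟩, ?_⟩
    · intro ρ hρ
      obtain ⟨v, hv', rfl⟩ := (hrg ρ).1 hρ
      exact (hv v hv').c
    · intro i hi
      obtain ⟨ρ, hρ, hi⟩ := ZFSet.mem_sUnion.1 hi
      obtain ⟨v, hv', rfl⟩ := (hrg ρ).1 hρ
      exact (hv v hv').g i hi
    · intro i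
      rw [ZFSet.mem_sUnion]
      constructor
      · rintro ⟨ρ, hρ, hi⟩
        obtain ⟨v, hv', rfl⟩ := (hrg ρ).1 hρ
        exact ⟨v, hv', hi⟩
      · rintro ⟨v, hv', hi⟩
        exact ⟨_, (hrg _).2 ⟨v, hv', rfl⟩, hi⟩

end SE.UZ
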